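import Pool.Agent.H84.S2.Tg
import Pool.Agent.H27.LV.Curve

/-!
# MP_70ba79_ag, board `s2l_modules`, row BLW: the blow-up of a point
-/

set_option autoImplicit false

namespace Pool.Agent.H96.S2

open SC
open Pool.Agent.H27.LV (ge ge_const ge_zero const_eq_zero)
open Pool.Agent.H84.SF Pool.Agent.H84.S2
open Pool.Agent.H92.OD (HS cf uu)

/-- the image in a field of the localization of `R` at the kernel of `e0` -/
theorem loc_img {k R F : Type} [Field k] [CommRing R] [IsNoetherianRing R] [Algebra k R] [Field F]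
    [Algebra k F] (ev : R →ₐ[k] F) (e0 : R →ₐ[k] k) (hk : ∀ P, ev P = 0 → e0 P = 0) :
    ∃ A : Subalgebra k F, IsNoetherianRing A ∧
      (∀ f, f ∈ A ↔ ∃ P Q, e0 Q ≠ 0 ∧ f * ev Q = ev P) ∧
      ∀ (K : Type) [Field K] [Algebra k K] (φ0 : R →ₐ[k] K), (∀ Q, e0 Q ≠ 0 → φ0 Q ≠ 0) →
        (∀ P, ev P = 0 → φ0 P = 0) → ∃ φ : A →ₐ[k] K, ∀ (f : A) (P Q : R),
          (f : F) * ev Q = ev P → φ f * φ0 Q = φ0 P := by
  obtain ⟨q, hq⟩ : ∃ q : Ideal R, q = RingHom.ker (e0 : R →+* k) := ⟨_, rfl⟩
  have hqp : q.IsPrime := hq ▸ RingHom.ker_isPrime _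
  have hM : ∀ Q : R, Q ∈ q.primeCompl ↔ e0 Q ≠ 0 := by
    intro Q
    rw [Ideal.mem_primeCompl_iff, hq, RingHom.mem_ker]
    rfl
  have hevu : ∀ y : q.primeCompl, IsUnit (ev y) := by
    intro y
    rw [isUnit_iff_ne_zero]
    intro h
    exact (hM y).1 y.2 (hk _ h)
  let ψ : Localization.AtPrime q →ₐ[k] F := IsLocalization.liftAlgHom (M := q.primeCompl) hevu
  have hψ : ∀ P, ψ (algebraMap R _ P) = ev P := by
    intro P
    change IsLocalization.lift (M := q.primeCompl) _ _ = _
    rw [IsLocalization.lift_eq]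
    rfl
  have hnL : IsNoetherianRing (Localization.AtPrime q) :=
    IsLocalization.isNoetherianRing q.primeCompl _ inferInstance
  refine ⟨ψ.range, isNoetherianRing_of_surjective _ _ ψ.rangeRestrict.toRingHom
    ψ.rangeRestrict_surjective, ?_, ?_⟩
  · intro f
    constructor
    · rintro ⟨a, rfl⟩
      obtain ⟨⟨P, Q⟩, hPQ⟩ := IsLocalization.surj q.primeCompl a
      refine ⟨P, Q, (hM Q).1 Q.2, ?_⟩
      have h1 := congrArg ψ hPQ
      rw [map_mul, hψ, hψ] at h1
      exact h1
    · rintro ⟨P, Q, hQ, h⟩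
      have hQ0 : ev Q ≠ 0 := fun h => hQ (hk _ h)
      refine ⟨IsLocalization.mk' _ P ⟨Q, (hM Q).2 hQ⟩, ?_⟩
      have h1 := congrArg ψ (IsLocalization.mk'_spec (Localization.AtPrime q) P ⟨Q, (hM Q).2 hQ⟩)
      rw [map_mul, hψ, hψ] at h1
      change ψ _ = f
      rw [← h] at h1
      exact mul_right_cancel₀ hQ0 h1
  · intro K _ _ φ0 h1 h2
    have hu : ∀ y : q.primeCompl, IsUnit (φ0 y) := by
      intro y
      rw [isUnit_iff_ne_zero]
      exact h1 _ ((hM y).1 y.2)
    let φL : Localization.AtPrime q →ₐ[k] K := IsLocalization.liftAlgHom (M := q.primeCompl) hu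
    have hφL : ∀ P, φL (algebraMap R _ P) = φ0 P := by
      intro P
      change IsLocalization.lift (M := q.primeCompl) _ _ = _
      rw [IsLocalization.lift_eq]
      rfl
    have hker : RingHom.ker ψ.rangeRestrict.toRingHom ≤ RingHom.ker φL.toRingHom := by
      intro a ha
      rw [RingHom.mem_ker] at ha ⊢
      have ha1 : ψ a = 0 := congrArg Subtype.val ha
      obtain ⟨⟨P, Q⟩, hPQ⟩ := IsLocalization.surj q.primeCompl a
      have h3 := congrArg ψ hPQ
      rw [map_mul, hψ, hψ, ha1, zero_mul] at h3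
      have h4 := congrArg φL hPQ
      rw [map_mul, hφL, hφL, h2 _ h3.symm] at h4
      rcases mul_eq_zero.1 h4 with h5 | h5
      · exact h5
      · exact absurd h5 (h1 _ ((hM Q).1 Q.2))
    let φ : ψ.range →ₐ[k] K :=
      AlgHom.liftOfSurjective ψ.rangeRestrict ψ.rangeRestrict_surjective φL hker
    refine ⟨φ, ?_⟩
    intro f P Q hf
    have hφ : ∀ a, φ (ψ.rangeRestrict a) = φL a := fun a =>
      AlgHom.liftOfSurjective_apply ψ.rangeRestrict ψ.rangeRestrict_surjective φL hker a
    have h5 : f * ψ.rangeRestrict (algebraMap R _ Q) = ψ.rangeRestrict (algebraMap R _ P) := by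
      apply Subtype.ext
      change (f : F) * ψ _ = ψ _
      rw [hψ, hψ, hf]
    have h6 := congrArg φ h5
    rw [map_mul, hφ, hφ, hφL, hφL] at h6
    exact h6

open TensorProduct in
/-- extension of a derivation to the fraction field -/
theorem ext_der {k O F : Type} [Field k] [CommRing O] [IsDomain O] [Field F] [Algebra k O]
    [Algebra k F] [Algebra O F] [IsScalarTower k O F] [IsFractionRing O F]
    (d : Derivation k O O) :
    ∃ D : Derivation k F F, ∀ h, D (algebraMap O F h) = algebraMap O F (d h) := by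
  have et : Algebra.FormallyEtale O F :=
    Algebra.FormallyEtale.of_isLocalization (nonZeroDivisors O)
  let D0 : Derivation k O F := (Algebra.linearMap O F).compDer d
  let l : F ⊗[O] (Ω[O⁄k]) →ₗ[F] F := D0.liftKaehlerDifferential.liftBaseChange F
  let e := KaehlerDifferential.tensorKaehlerEquivOfFormallyEtale k O F
  refine ⟨(l ∘ₗ e.symm.toLinearMap).compDer (KaehlerDifferential.D k F), fun h => ?_⟩
  change l (e.symm (KaehlerDifferential.D k F (algebraMap O F h))) = _
  rw [KaehlerDifferential.tensorKaehlerEquivOfFormallyEtale_symm_D_algebraMap]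
  rw [LinearMap.liftBaseChange_tmul, one_smul, Derivation.liftKaehlerDifferential_comp_D]
  rfl

/-- restriction of a derivation to a subalgebra -/
theorem res_der {k F : Type} [Field k] [Field F] [Algebra k F] (A : Subalgebra k F)
    (D : Derivation k F F) (hD : ∀ f ∈ A, D f ∈ A) :
    ∃ D' : Derivation k A A, ∀ f : A, (D' f : F) = D f := by
  refine ⟨Derivation.mk' (LinearMap.codRestrict (Subalgebra.toSubmodule A)
    ((D : F →ₗ[k] F) ∘ₗ A.val.toLinearMap) (fun f => hD f f.2)) ?_, ?_⟩
  · intro a b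
    apply Subtype.ext
    change D ((a : F) * (b : F)) = (a : F) * D (b : F) + (b : F) * D (a : F)
    rw [D.leibniz]
    rfl
  · intro f
    rfl

/-- the value of a polynomial at `Y / X` -/
theorem homog {O R : Type} [CommRing O] [CommRing R] (g : O →+* R) (X Y : O) (w : R)
    (hw : w * g X = g Y) (P : Polynomial O) :
    g (∑ i ∈ Finset.range (P.natDegree + 1), P.coeff i * Y ^ i * X ^ (P.natDegree - i)) =
      g X ^ P.natDegree * P.eval₂ g w := by
  rw [Polynomial.eval₂_eq_sum_range, Finset.mul_sum, map_sum]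
  apply Finset.sum_congr rfl
  intro i hi
  have hi1 : i ≤ P.natDegree := by
    rw [Finset.mem_range] at hi
    omega
  obtain ⟨j, hj⟩ := Nat.exists_eq_add_of_le hi1
  rw [map_mul, map_mul, map_pow, map_pow, ← hw, hj, Nat.add_sub_cancel_left]
  ring

/-- relations of `Y / X` -/
theorem key {O F L : Type} [CommRing O] [IsDomain O] [Field F] [Field L] (g : O →+* F)
    (hg : Function.Injective g) (c : O →+* L) (X Y : O) (z : F) (hz : z * g X = g Y)
    (w : L) (hw : w * c X = c Y) (hcX : c X ≠ 0) (P : Polynomial O) (hP : P.eval₂ g z = 0) :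
    P.eval₂ c w = 0 := by
  have h1 := homog g X Y z hz P
  rw [hP, mul_zero] at h1
  have h2 := hg (h1.trans (map_zero g).symm)
  have h3 := homog c X Y w hw P
  rw [h2, map_zero] at h3
  rcases mul_eq_zero.1 h3.symm with h4 | h4
  · exact absurd h4 (pow_ne_zero _ hcX)
  · exact h4

/-- the evaluation at `w` of the polynomials with coefficients in `O` -/
noncomputable def evl {k O R : Type} [Field k] [CommRing O] [Algebra k O] [CommRing R]
    [Algebra k R] (g : O →ₐ[k] R) (w : R) : Polynomial O →ₐ[k] R :=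
  Polynomial.eval₂AlgHom g w fun _ => Commute.all _ _

section

variable {k O R : Type} [Field k] [CommRing O] [Algebra k O] [CommRing R] [Algebra k R]
  (g : O →ₐ[k] R) (w : R)

theorem evl_eq (P : Polynomial O) : evl g w P = P.eval₂ (g : O →+* R) w := rfl

theorem evl_C (a : O) : evl g w (Polynomial.C a) = g a := by
  rw [evl_eq, Polynomial.eval₂_C]
  rfl

theorem evl_X : evl g w Polynomial.X = w := by
  rw [evl_eq, Polynomial.eval₂_X]

theorem evl_split (P : Polynomial O) :
    evl g w P = evl g w P.divX * w + g (P.coeff 0) := by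
  conv_lhs => rw [← Polynomial.divX_mul_X_add P]
  rw [map_add, map_mul, evl_C, evl_X]

theorem evl_zero (P : Polynomial O) : evl g 0 P = g (P.coeff 0) := by
  rw [evl_split, mul_zero, zero_add]

end

/-- stability under a derivation -/
theorem stable {k O F : Type} [Field k] [CommRing O] [Algebra k O] [Field F] [Algebra k F]
    (g : O →ₐ[k] F) (z : F) (e0 : Polynomial O →ₐ[k] k)
    (hk : ∀ P, evl g z P = 0 → e0 P = 0) (A : Subalgebra k F)
    (hA : ∀ f, f ∈ A ↔ ∃ P Q, e0 Q ≠ 0 ∧ f * evl g z Q = evl g z P) (D : Derivation k F F)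
    (hDg : ∀ h, D (g h) ∈ A) (hDz : D z ∈ A) : ∀ f ∈ A, D f ∈ A := by
  have h1 : e0 1 ≠ 0 := by
    rw [map_one]
    exact one_ne_zero
  have hev : ∀ P, evl g z P ∈ A := fun P => (hA _).2 ⟨P, 1, h1, by rw [map_one, mul_one]⟩
  have hg : ∀ a, g a ∈ A := fun a => by
    have := hev (Polynomial.C a)
    rwa [evl_C] at this
  have hz : z ∈ A := by
    have := hev Polynomial.X
    rwa [evl_X] at this
  have hDev : ∀ P, D (evl g z P) ∈ A := by
    intro P
    induction P using Polynomial.induction_on' with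
    | add p q hp hq =>
      rw [map_add, map_add]
      exact add_mem hp hq
    | monomial n a =>
      rw [← Polynomial.C_mul_X_pow_eq_monomial, map_mul, map_pow, evl_C, evl_X, D.leibniz,
        D.leibniz_pow]
      simp only [smul_eq_mul, nsmul_eq_mul]
      exact add_mem (mul_mem (hg a) (mul_mem (natCast_mem A n) (mul_mem (pow_mem hz _) hDz)))
        (mul_mem (pow_mem hz _) (hDg a))
  intro f hf
  obtain ⟨P, Q, hQ, hPQ⟩ := (hA f).1 hf
  have hQ0 : evl g z Q ≠ 0 := fun h => hQ (hk _ h)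
  have hinv : (evl g z Q)⁻¹ ∈ A := (hA _).2 ⟨1, Q, hQ, by rw [inv_mul_cancel₀ hQ0, map_one]⟩
  have h2 := congrArg D hPQ
  rw [D.leibniz] at h2
  simp only [smul_eq_mul] at h2
  have h3 : D f = (D (evl g z P) - f * D (evl g z Q)) * (evl g z Q)⁻¹ := by
    rw [← h2]
    field_simp
    ring
  rw [h3]
  exact mul_mem (sub_mem (hDev P) (mul_mem hf (hDev Q))) hinv

theorem pf_BLW (hTAY : T_TAY) : T_BLW := by
  intro k O _ _ _ _ _ _ ε X Y dX dY hF
  have hX0 : X ≠ 0 := by
    intro h
    have h1 := hF.xx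
    rw [h, map_zero] at h1
    exact zero_ne_one h1
  obtain ⟨g, hg⟩ : ∃ g : O →ₐ[k] FractionRing O, g = IsScalarTower.toAlgHom k O _ := ⟨_, rfl⟩
  have hga : ∀ h, g h = algebraMap O (FractionRing O) h := fun h => by rw [hg]; rfl
  have hgi : Function.Injective g := by
    rw [hg]
    exact IsFractionRing.injective O (FractionRing O)
  have hgX : g X ≠ 0 := fun h => hX0 (hgi (h.trans (map_zero g).symm))
  obtain ⟨z, hz0⟩ : ∃ z, z = g Y / g X := ⟨_, rfl⟩
  have hz : z * g X = g Y := by
    rw [hz0]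
    exact div_mul_cancel₀ _ hgX
  have hk : ∀ P, evl g z P = 0 → evl ε 0 P = 0 := by
    intro P hP
    obtain ⟨c, hc1, hc2, hc3⟩ := hTAY k O ε X Y dX dY hF
    have hcX : c X ≠ 0 := by
      rw [hc1.eqX]
      intro h
      have h1 := congrArg (fun y => cf y 1) h
      simp only [Pool.Agent.H92.OD.cf_zero] at h1
      change cf (Pool.Agent.H92.OD.sg 1 1) 1 = 0 at h1
      rw [Pool.Agent.H92.OD.cf_sg, if_pos rfl] at h1
      exact one_ne_zero h1
    have h2 : evl c 0 P = 0 :=
      key (g : O →+* FractionRing O) hgi (c : O →+* HS k) X Y z hz 0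
        (by
          change 0 * c X = c Y
          rw [hc2, zero_mul]) hcX P hP
    rw [evl_zero] at h2 ⊢
    have h3 := (hc3 (P.coeff 0)).2
    rw [h2, Pool.Agent.H92.OD.cf_zero] at h3
    exact h3.symm
  obtain ⟨A, hAn, hAm, hAl⟩ := loc_img (evl g z) (evl ε 0) hk
  have h01 : evl ε 0 (1 : Polynomial O) ≠ 0 := by
    rw [map_one]
    exact one_ne_zero
  have hev : ∀ P, evl g z P ∈ A := fun P => (hAm _).2 ⟨P, 1, h01, by rw [map_one, mul_one]⟩
  have hgA : ∀ a, g a ∈ A := fun a => by
    have := hev (Polynomial.C a)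
    rwa [evl_C] at this
  have hzA : z ∈ A := by
    have := hev Polynomial.X
    rwa [evl_X] at this
  have hinv : ∀ Q, evl ε 0 Q ≠ 0 → evl g z Q ≠ 0 ∧ (evl g z Q)⁻¹ ∈ A := by
    intro Q hQ
    have hQ0 : evl g z Q ≠ 0 := fun h => hQ (hk _ h)
    exact ⟨hQ0, (hAm _).2 ⟨1, Q, hQ, by rw [inv_mul_cancel₀ hQ0, map_one]⟩⟩
  obtain ⟨ε', hε'⟩ := hAl k (evl ε 0) (fun _ h => h) hk
  obtain ⟨ι, hι⟩ : ∃ ι : O →ₐ[k] A, ∀ h, (ι h : FractionRing O) = g h :=
    ⟨g.codRestrict A hgA, fun h => rfl⟩
  obtain ⟨Z, hZ⟩ : ∃ Z : A, (Z : FractionRing O) = z := ⟨⟨z, hzA⟩, rfl⟩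
  have hε'ι : ∀ h, ε' (ι h) = ε h := by
    intro h
    have h1 := hε' (ι h) (Polynomial.C h) 1 (by rw [hι, map_one, mul_one, evl_C])
    rwa [map_one, mul_one, evl_C] at h1
  have hε'Z : ε' Z = 0 := by
    have h1 := hε' Z Polynomial.X 1 (by rw [hZ, map_one, mul_one, evl_X])
    rwa [map_one, mul_one, evl_X] at h1
  obtain ⟨δX, hδX⟩ := ext_der (F := FractionRing O) dX
  obtain ⟨δY, hδY⟩ := ext_der (F := FractionRing O) dY
  have hδX1 : ∀ h, δX (g h) = g (dX h) := fun h => by rw [hga, hδX, hga]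
  have hδY1 : ∀ h, δY (g h) = g (dY h) := fun h => by rw [hga, hδY, hga]
  obtain ⟨D1, hD1⟩ : ∃ D1, D1 = δX + z • δY := ⟨_, rfl⟩
  obtain ⟨D2, hD2⟩ : ∃ D2, D2 = g X • δY := ⟨_, rfl⟩
  have hD1g : ∀ h, D1 (g h) = g (dX h) + z * g (dY h) := by
    intro h
    rw [hD1, Derivation.add_apply, Derivation.smul_apply, hδX1, hδY1, smul_eq_mul]
  have hD2g : ∀ h, D2 (g h) = g X * g (dY h) := by
    intro h
    rw [hD2, Derivation.smul_apply, hδY1, smul_eq_mul]
  have hD1z : D1 z = 0 := by
    have h1 := congrArg D1 hz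
    rw [D1.leibniz, hD1g, hD1g, hF.xx, hF.gx, hF.xg, hF.gg, map_one, map_zero, mul_zero,
      add_zero, zero_add, mul_one, smul_eq_mul, smul_eq_mul, mul_one] at h1
    have h2 : g X * D1 z = 0 := by
      linear_combination h1
    exact (mul_eq_zero.1 h2).resolve_left hgX
  have hD2z : D2 z = 1 := by
    have h1 := congrArg D2 hz
    rw [D2.leibniz, hD2g, hD2g, hF.gx, hF.gg, map_one, map_zero, mul_zero,
      mul_one, smul_eq_mul, smul_eq_mul, mul_zero, zero_add] at h1
    exact mul_left_cancel₀ hgX (h1.trans (mul_one _).symm)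
  obtain ⟨dX', hdX'⟩ := res_der A D1 (stable g z (evl ε 0) hk A hAm D1
    (fun h => by
      rw [hD1g]
      exact add_mem (hgA _) (mul_mem hzA (hgA _)))
    (by
      rw [hD1z]
      exact zero_mem _))
  obtain ⟨dZ', hdZ'⟩ := res_der A D2 (stable g z (evl ε 0) hk A hAm D2
    (fun h => by
      rw [hD2g]
      exact mul_mem (hgA _) (hgA _))
    (by
      rw [hD2z]
      exact one_mem _))
  refine ⟨A, inferInstance, inferInstance, hAn, inferInstance, ι, ε', Z, dX', dZ', ?_, ?_, hε'ι,
    ?_, ?_, ?_, ?_⟩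
  · intro a b hab
    apply hgi
    rw [← hι, ← hι, hab]
  · apply Subtype.ext
    change (ι Y : FractionRing O) = (ι X : FractionRing O) * (Z : FractionRing O)
    rw [hι, hι, hZ, ← hz, mul_comm]
  · refine ⟨?_, ?_, ?_, ?_, ?_, ?_⟩
    · intro h hh
      obtain ⟨P, Q, hQ, hPQ⟩ := (hAm h).1 h.2
      have h1 := hε' h P Q hPQ
      have h2 : evl ε 0 P ≠ 0 := by
        rw [← h1]
        exact mul_ne_zero hh hQ
      obtain ⟨h3, h4⟩ := hinv P h2
      rw [isUnit_iff_exists_inv]
      refine ⟨⟨evl g z Q * (evl g z P)⁻¹, mul_mem (hev Q) h4⟩, ?_⟩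
      apply Subtype.ext
      change (h : FractionRing O) * (evl g z Q * (evl g z P)⁻¹) = 1
      rw [← mul_assoc, hPQ, mul_inv_cancel₀ h3]
    · intro h
      constructor
      · intro hh
        obtain ⟨P, Q, hQ, hPQ⟩ := (hAm h).1 h.2
        have h1 := hε' h P Q hPQ
        rw [hh, zero_mul, evl_zero] at h1
        obtain ⟨a, b, hab⟩ := (hF.max _).1 h1.symm
        obtain ⟨h3, h4⟩ := hinv Q hQ
        refine ⟨⟨g a * (evl g z Q)⁻¹, mul_mem (hgA _) h4⟩,
          ⟨(evl g z P.divX + g b * g X) * (evl g z Q)⁻¹,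
            mul_mem (add_mem (hev _) (mul_mem (hgA _) (hgA _))) h4⟩, ?_⟩
        apply Subtype.ext
        change (h : FractionRing O) = g a * (evl g z Q)⁻¹ * (ι X : FractionRing O) +
          (evl g z P.divX + g b * g X) * (evl g z Q)⁻¹ * (Z : FractionRing O)
        rw [hι, hZ]
        have h5 : (h : FractionRing O) = evl g z P * (evl g z Q)⁻¹ := by
          rw [← hPQ, mul_assoc, mul_inv_cancel₀ h3, mul_one]
        rw [h5, evl_split, hab, map_add, map_mul, map_mul, ← hz]
        ring
      · rintro ⟨a, b, rfl⟩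
        have h1 : ε X = 0 := (hF.max X).2 ⟨1, 0, by ring⟩
        rw [map_add, map_mul, map_mul, hε'ι, h1, hε'Z, mul_zero, mul_zero, add_zero]
    · apply Subtype.ext
      rw [hdX', hι, hD1g, hF.xx, hF.gx, map_one, map_zero, mul_zero, add_zero]
      rfl
    · apply Subtype.ext
      rw [hdX', hZ, hD1z]
      rfl
    · apply Subtype.ext
      rw [hdZ', hι, hD2g, hF.gx, map_zero, mul_zero]
      rfl
    · apply Subtype.ext
      rw [hdZ', hZ, hD2z]
      rfl
  · intro h
    apply Subtype.ext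
    change (dZ' (ι h) : FractionRing O) = (ι X : FractionRing O) * (ι (dY h) : FractionRing O)
    rw [hdZ', hι, hι, hι, hD2g]
  · intro h
    apply Subtype.ext
    change (dX' (ι h) : FractionRing O) =
      (ι (dX h) : FractionRing O) + (Z : FractionRing O) * (ι (dY h) : FractionRing O)
    rw [hdX', hι, hι, hι, hZ, hD1g]
  · intro K _ _ x v hx0 hx1 hxX hxY
    obtain ⟨w, hw0⟩ : ∃ w, w = x Y / x X := ⟨_, rfl⟩
    have hw : w * x X = x Y := by
      rw [hw0]
      exact div_mul_cancel₀ _ hxX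
    have hw1 : ge v 1 w := by
      by_cases hY : x Y = 0
      · left
        rw [hw0, hY, zero_div]
      · have h1 := hxY.resolve_left hY
        have hw2 : w ≠ 0 := by
          intro h
          rw [h, zero_mul] at hw
          exact hY hw.symm
        right
        have h2 := v.ord_mul w (x X) hw2 hxX
        rw [hw] at h2
        omega
    have hint : ∀ P, ge v 0 (evl x w P) := by
      intro P
      induction P using Polynomial.induction_on' with
      | add p q hp hq =>
        rw [map_add]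
        exact hp.add hq
      | monomial n a =>
        rw [← Polynomial.C_mul_X_pow_eq_monomial, map_mul, map_pow, evl_C, evl_X]
        have hwn : ge v 0 (w ^ n) := by
          induction n with
          | zero =>
            rw [pow_zero]
            exact Pool.Agent.H27.LV.ge_one v
          | succ n ih =>
            rw [pow_succ]
            exact (ih.mul hw1).mono (by norm_num)
        exact ((hx0 a).mul hwn).mono (by norm_num)
    have hres : ∀ Q, ge v 1 (evl x w Q - algebraMap k K (evl ε 0 Q)) := by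
      intro Q
      rw [evl_split, evl_zero]
      have h1 : ge v 1 (x (Q.coeff 0 - algebraMap k O (ε (Q.coeff 0)))) := by
        apply hx1
        rw [map_sub, AlgHom.commutes]
        exact sub_self _
      rw [map_sub, AlgHom.commutes] at h1
      have h2 : ge v 1 (evl x w Q.divX * w) := ((hint _).mul hw1).mono (by norm_num)
      have h3 := h2.add h1
      rw [← add_sub_assoc] at h3
      exact h3
    have hne : ∀ Q, evl ε 0 Q ≠ 0 → evl x w Q ≠ 0 := by
      intro Q hQ h
      have h1 := hres Q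
      rw [h, zero_sub] at h1
      have h2 := h1.neg
      rw [neg_neg] at h2
      exact hQ (const_eq_zero v one_pos h2)
    have hord : ∀ Q, evl ε 0 Q ≠ 0 → v.ord (evl x w Q) = 0 := by
      intro Q hQ
      have h1 := (hint Q).resolve_left (hne Q hQ)
      by_contra hn
      have h2 : ge v 1 (evl x w Q) := Or.inr (by omega)
      have h3 := (h2.sub (hres Q))
      rw [sub_sub_cancel] at h3
      exact hQ (const_eq_zero v one_pos h3)
    have hkx : ∀ P, evl g z P = 0 → evl x w P = 0 := fun P hP =>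
      key (g : O →+* FractionRing O) hgi (x : O →+* K) X Y z hz w hw hxX P hP
    obtain ⟨x', hx'⟩ := hAl K (evl x w) hne hkx
    have hge : ∀ (h : A) (P Q : Polynomial O) (t : ℤ), evl ε 0 Q ≠ 0 →
        (h : FractionRing O) * evl g z Q = evl g z P → ge v t (evl x w P) → ge v t (x' h) := by
      intro h P Q t hQ hPQ hP
      have h1 := hx' h P Q hPQ
      by_cases hh : x' h = 0
      · exact Or.inl hh
      right
      have h2 := v.ord_mul _ _ hh (hne Q hQ)
      rw [h1, hord Q hQ, add_zero] at h2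
      have h3 : evl x w P ≠ 0 := by
        rw [← h1]
        exact mul_ne_zero hh (hne Q hQ)
      rw [← h2]
      exact hP.resolve_left h3
    refine ⟨x', ?_, ?_, ?_⟩
    · intro h
      have h1 := hx' (ι h) (Polynomial.C h) 1 (by rw [hι, map_one, mul_one, evl_C])
      rwa [map_one, mul_one, evl_C] at h1
    · intro h
      obtain ⟨P, Q, hQ, hPQ⟩ := (hAm h).1 h.2
      exact hge h P Q 0 hQ hPQ (hint P)
    · intro h hh
      obtain ⟨P, Q, hQ, hPQ⟩ := (hAm h).1 h.2
      have h1 := hε' h P Q hPQ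
      rw [hh, zero_mul] at h1
      apply hge h P Q 1 hQ hPQ
      have h2 := hres P
      rwa [← h1, map_zero, sub_zero] at h2

end Pool.Agent.H96.S2
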